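import Pool.Agent.Helper10.K3R.Defs

/-!
# Module RB (MP_ed3816_nt): small multiples of real points
-/

namespace KumWA

open Classical Topology

/-- doubles of points near a point of order two are small -/
theorem far_double {d : ℝ} (hd : d ≠ 0) {P₀ : E d} (_hP₀ : P₀ ≠ 0) (hy : yc P₀ = 0) (R : ℝ) :
    ∃ ε : ℝ, 0 < ε ∧ ∀ P : E d, P ≠ 0 → |xc P - xc P₀| < ε → Far R (P + P) := by
  have hd2 : 0 < d ^ 2 := by positivity
  have h0 : xc P₀ ^ 3 + 4 * d * xc P₀ ^ 2 + 2 * d ^ 2 * xc P₀ = 0 := by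
    rw [← curve_eq P₀, hy]; ring
  have hc : xc P₀ ^ 2 - 2 * d ^ 2 ≠ 0 := by
    intro h
    have h1 : xc P₀ * (xc P₀ ^ 2 + 4 * d * xc P₀ + 2 * d ^ 2) = 0 := by linear_combination h0
    rcases mul_eq_zero.1 h1 with h2 | h2
    · rw [h2] at h
      nlinarith
    · have h3 : 4 * d * (xc P₀ + d) = 0 := by linear_combination h2 - h
      have h4 : xc P₀ + d = 0 := by
        rcases mul_eq_zero.1 h3 with h5 | h5
        · exact absurd (by linarith : d = 0) hd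
        · exact h5
      have h5 : xc P₀ = -d := by linarith
      rw [h5] at h
      nlinarith
  let g : ℝ → ℝ := fun x => (x ^ 2 - 2 * d ^ 2) ^ 2 - 4 * R * (x ^ 3 + 4 * d * x ^ 2 + 2 * d ^ 2 * x)
  have hg : Continuous g := by fun_prop
  have hg0 : 0 < g (xc P₀) := by
    show 0 < (xc P₀ ^ 2 - 2 * d ^ 2) ^ 2 -
      4 * R * (xc P₀ ^ 3 + 4 * d * xc P₀ ^ 2 + 2 * d ^ 2 * xc P₀)
    rw [h0]
    have := sq_pos_of_ne_zero hc
    linarith
  obtain ⟨ε, hε, H⟩ := Metric.eventually_nhds_iff.1 (hg.continuousAt.eventually (lt_mem_nhds hg0))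
  refine ⟨ε, hε, fun P hP hx => ?_⟩
  by_cases hyP : yc P = 0
  · left
    exact add_self_of_yc hyP
  · right
    obtain ⟨-, h1⟩ := xc_double hP hyP
    have h2 : 0 < g (xc P) := H (by rw [Real.dist_eq]; exact hx)
    have h3 : 0 < (xc P ^ 2 - 2 * d ^ 2) ^ 2 -
      4 * R * (xc P ^ 3 + 4 * d * xc P ^ 2 + 2 * d ^ 2 * xc P) := h2
    rw [← curve_eq P, ← h1] at h3
    have h4 : 0 < 4 * yc P ^ 2 := by positivity
    have h5 : R * (4 * yc P ^ 2) < xc (P + P) * (4 * yc P ^ 2) := by linarith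
    have h6 : R < xc (P + P) := lt_of_mul_lt_mul_right h5 h4.le
    exact h6.le.trans (le_abs_self _)

/-- every point has small nonzero multiples; `far_add`, `far_of_close` as hypotheses -/
theorem inf_small_of
    (far_add : ∀ (d : ℝ) {R : ℝ}, 0 < R →
      ∃ R' : ℝ, R ≤ R' ∧ ∀ P Q : E d, Far R' P → Far R' Q → Far R (P + Q))
    (far_of_close : ∀ {d : ℝ} {P : E d}, P ≠ 0 → yc P ≠ 0 → ∀ R : ℝ,
      ∃ ε : ℝ, 0 < ε ∧ ∀ P' : E d, P' ≠ 0 → |xc P' - xc P| < ε → |yc P' - yc P| < ε →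
        Far R (P' - P))
    {d : ℝ} (hd : d ≠ 0) (P : E d) (R : ℝ) : ∃ k : ℕ, k ≠ 0 ∧ Far R (k • P) := by
  by_contra hcon
  push Not at hcon
  have hk : ∀ k : ℕ, (k + 1) • P ≠ 0 ∧ |xc ((k + 1) • P)| < R := by
    intro k
    have h := hcon (k + 1) (Nat.succ_ne_zero k)
    unfold Far at h
    push Not at h
    exact h
  have hR : 0 < R := lt_of_le_of_lt (abs_nonneg _) (hk 0).2
  -- a bounded sequence
  let u : ℕ → ℝ × ℝ := fun k => (xc ((k + 1) • P), yc ((k + 1) • P))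
  set B : ℝ := R ^ 3 + 4 * |d| * R ^ 2 + 2 * d ^ 2 * R with hB
  have hB0 : 0 ≤ B := by positivity
  have hy : ∀ k, |yc ((k + 1) • P)| ≤ 1 + B := by
    intro k
    have h1 := congrArg abs (curve_eq ((k + 1) • P))
    rw [abs_pow] at h1
    have h2 : |xc ((k + 1) • P) ^ 3 + 4 * d * xc ((k + 1) • P) ^ 2 +
        2 * d ^ 2 * xc ((k + 1) • P)| ≤ B := by
      refine (abs_add_three _ _ _).trans ?_
      rw [abs_mul, abs_mul, abs_mul, abs_mul, abs_pow, abs_pow, abs_pow, abs_two,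
        abs_of_pos (by norm_num : (0:ℝ) < 4), sq_abs d, hB]
      have := (hk k).2.le
      gcongr
    have h3 : |yc ((k + 1) • P)| ^ 2 ≤ B := by rw [h1]; exact h2
    nlinarith [abs_nonneg (yc ((k + 1) • P)), sq_nonneg (|yc ((k + 1) • P)| - 1)]
  have hbdd : Bornology.IsBounded (Set.range u) := by
    rw [Metric.isBounded_iff_subset_closedBall 0]
    refine ⟨max R (1 + B), ?_⟩
    rintro _ ⟨k, rfl⟩
    rw [Metric.mem_closedBall, dist_zero_right, Prod.norm_def]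
    exact max_le_max (hk k).2.le (hy k)
  obtain ⟨a, -, φ, hφ, hlim⟩ := tendsto_subseq_of_bounded hbdd (fun k => Set.mem_range_self k)
  -- the limit point
  have hlim1 : Filter.Tendsto (fun j => xc ((φ j + 1) • P)) Filter.atTop (𝓝 a.1) :=
    (continuous_fst.tendsto a).comp hlim
  have hlim2 : Filter.Tendsto (fun j => yc ((φ j + 1) • P)) Filter.atTop (𝓝 a.2) :=
    (continuous_snd.tendsto a).comp hlim
  have heq : a.2 ^ 2 = a.1 ^ 3 + 4 * d * a.1 ^ 2 + 2 * d ^ 2 * a.1 := by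
    have h1 : Filter.Tendsto (fun j => yc ((φ j + 1) • P) ^ 2) Filter.atTop (𝓝 (a.2 ^ 2)) :=
      hlim2.pow 2
    have h2 : Filter.Tendsto (fun j => xc ((φ j + 1) • P) ^ 3 + 4 * d * xc ((φ j + 1) • P) ^ 2 +
        2 * d ^ 2 * xc ((φ j + 1) • P)) Filter.atTop
        (𝓝 (a.1 ^ 3 + 4 * d * a.1 ^ 2 + 2 * d ^ 2 * a.1)) := by
      have hc : Continuous (fun x : ℝ => x ^ 3 + 4 * d * x ^ 2 + 2 * d ^ 2 * x) := by fun_prop
      exact (hc.tendsto a.1).comp hlim1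
    apply tendsto_nhds_unique h1
    refine h2.congr (fun j => ?_)
    exact (curve_eq _).symm
  set Q : E d := mkP hd a.1 a.2 heq with hQdef
  have hQ : Q ≠ 0 := mkP_ne hd _ _ _
  have hQx : xc Q = a.1 := rfl
  have hQy : yc Q = a.2 := rfl
  rw [← hQx] at hlim1
  rw [← hQy] at hlim2
  by_cases hy0 : yc Q = 0
  · obtain ⟨ε, hε, H⟩ := far_double hd hQ hy0 R
    obtain ⟨N1, hN1⟩ := Metric.tendsto_atTop.1 hlim1 ε hε
    have h1 := hN1 N1 le_rfl
    rw [Real.dist_eq] at h1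
    have h2 := H _ (hk (φ N1)).1 h1
    apply hcon ((φ N1 + 1) + (φ N1 + 1)) (by omega)
    rw [add_smul]
    exact h2
  · obtain ⟨R', hRR', hadd⟩ := far_add d hR
    obtain ⟨ε, hε, H⟩ := far_of_close hQ hy0 R'
    obtain ⟨N1, hN1⟩ := Metric.tendsto_atTop.1 hlim1 ε hε
    obtain ⟨N2, hN2⟩ := Metric.tendsto_atTop.1 hlim2 ε hε
    have hnear : ∀ j, max N1 N2 ≤ j → Far R' ((φ j + 1) • P - Q) := by
      intro j hj
      apply H _ (hk _).1
      · have := hN1 j ((le_max_left _ _).trans hj)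
        rwa [Real.dist_eq] at this
      · have := hN2 j ((le_max_right _ _).trans hj)
        rwa [Real.dist_eq] at this
    set j := max N1 N2
    have h1 := hnear j le_rfl
    have h2 := hnear (j + 1) (Nat.le_succ j)
    have h3 := hadd _ _ h2 h1.neg
    have h4 : φ j < φ (j + 1) := hφ (Nat.lt_succ_self j)
    obtain ⟨k, hkk⟩ : ∃ k, φ (j + 1) = φ j + (k + 1) := ⟨φ (j + 1) - φ j - 1, by omega⟩
    apply hcon (k + 1) (Nat.succ_ne_zero k)
    have h5 : (φ (j + 1) + 1) • P - Q + -((φ j + 1) • P - Q) = (k + 1) • P := by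
      rw [hkk, show φ j + (k + 1) + 1 = (φ j + 1) + (k + 1) by ring, add_smul (φ j + 1) (k + 1) P]
      abel
    rwa [h5] at h3

end KumWA
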